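import Pool.Agent.Q5.SH.Stm
import Pool.Agent.Q128.AR.Sec3
import Pool.Agent.Q290.SG.Pl

set_option autoImplicit false
set_option linter.unusedSectionVars false

/-! # Project SH (helper5), job CNT -/

namespace Pool.Agent.Q96.SH

open NumberField IsDedekindDomain Module Pool.Agent.Y18.LC Pool.Agent.Q5.SG Pool.Agent.Q5.SH
open Pool.Agent.Q92.AR (Dv prin SupF prin_mul prin_one prin_inv prinHom)

section
variable {p : ℕ} [Fact p.Prime] {K : Type} [Field K] [NumberField K]

theorem prin_nonneg_of_val {b : Kˣ} {v : HeightOneSpectrum (𝓞 K)} (h : v.valuation K (b : K) ≤ 1) :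
    0 ≤ prin b v := by
  rw [Pool.Agent.Q128.AR.val_prin, ← WithZero.exp_zero, WithZero.exp_le_exp] at h
  omega

theorem prin_PSet {S : Set (K →+* ℂ_[p])} {b : Kˣ} (hb : Cl S 2 (b : K))
    {v : HeightOneSpectrum (𝓞 K)} (hv : v ∈ PSet S) : prin b v = 0 := by
  obtain ⟨-, σ, hσ, h⟩ := hv
  have h1 : v = Pool.Agent.Q290.SG.VV σ := by
    apply HeightOneSpectrum.ext
    ext a
    exact h a
  have h2 : ‖σ (b : K)‖ = 1 := norm_of_Cl_two hb (by
    have h3 : σ.comp (algebraMap K K) = σ := RingHom.ext fun x => rfl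
    rw [h3]
    exact hσ)
  have h3 : v.valuation K (b : K) ≤ 1 := by
    rw [h1]
    exact Pool.Agent.Q290.SG.val_le_one σ h2.le
  have h4 : v.valuation K ((b⁻¹ : Kˣ) : K) ≤ 1 := by
    rw [h1]
    apply Pool.Agent.Q290.SG.val_le_one σ
    rw [Units.val_inv_eq_inv_val, map_inv₀, norm_inv, h2, inv_one]
  have h5 := prin_nonneg_of_val h3
  have h6 := prin_nonneg_of_val h4
  rw [prin_inv, Finsupp.neg_apply] at h6
  omega

end

theorem mem_SupF {K : Type} [Field K] [NumberField K] {T : Set (HeightOneSpectrum (𝓞 K))} {D : Dv K} :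
    D ∈ SupF K T ↔ ∀ v, v ∉ T → D v = 0 := Iff.rfl

/-- a divisor, divided by `p` -/
theorem exists_div {K : Type} [Field K] [NumberField K] (p : ℕ) (V : Finset (HeightOneSpectrum (𝓞 K)))
    (D : Dv K) (h : ∀ v, v ∉ V → (p : ℤ) ∣ D v) :
    ∃ d : Dv K, D - p • d ∈ SupF K (V : Set (HeightOneSpectrum (𝓞 K))) := by
  classical
  refine ⟨D.mapRange (fun n => n / (p : ℤ)) (Int.zero_ediv _), fun v hv => ?_⟩
  rw [Finsupp.sub_apply, Finsupp.smul_apply, Finsupp.mapRange_apply, nsmul_eq_mul]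
  have h1 := h v (by simpa using hv)
  rw [Int.mul_ediv_cancel' h1, sub_self]

theorem cnt : J_CNT := by
  classical
  intro hGB hWU hCG hFI p _ hp2 K _ _ hU S hS hBig T χ hX hR hT
  have hp : p.Prime := Fact.out
  have hpZ : (0 : ℤ) < p := by exact_mod_cast hp.pos
  obtain ⟨I, hI, hIn⟩ := hBig
  obtain ⟨hPf, X, hXc, hXs⟩ := hGB p hp2 K hU S hS I hI T χ hX hR hT
  obtain ⟨hfi, -⟩ := hFI p K S T χ hX
  obtain ⟨V, hV⟩ : ∃ V : Finset (HeightOneSpectrum (𝓞 K)), V = T ∪ hPf.toFinset := ⟨_, rfl⟩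
  have hVs : (V : Set (HeightOneSpectrum (𝓞 K))) = (T : Set (HeightOneSpectrum (𝓞 K))) ∪ PSet S := by
    rw [hV, Finset.coe_union, Set.Finite.coe_toFinset]
  have hVc : V.card = T.card + (PSet S).ncard := by
    rw [hV, Finset.card_union_of_disjoint, Set.ncard_eq_toFinset_card _ hPf]
    rw [Finset.disjoint_left]
    intro v hv1 hv2
    rw [Set.Finite.mem_toFinset] at hv2
    exact hT v hv1 hv2.1
  obtain ⟨W, hVW, hWs, Z, hZc, hZs⟩ := hWU p hp2 K hU V
  obtain ⟨Y, hY⟩ : ∃ Y : Finset (Dv K), Y = (W \ V).finsupp (fun _ => Finset.Ico (0 : ℤ) p) := ⟨_, rfl⟩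
  have hYc : Y.card = p ^ (W.card - V.card) := by
    rw [hY, Finset.card_finsupp, Finset.prod_const, Finset.card_sdiff_of_subset hVW, Int.card_Ico]
    simp
  have hYm : ∀ y ∈ Y, (∀ v, v ∉ W → y v = 0) ∧ (∀ v ∈ V, y v = 0) ∧ ∀ v, 0 ≤ y v ∧ y v < p := by
    intro y hy
    rw [hY, Finset.mem_finsupp_iff] at hy
    obtain ⟨h1, h2⟩ := hy
    have h3 : ∀ v, v ∉ W \ V → y v = 0 := fun v hv => by
      by_contra h
      exact hv (h1 (Finsupp.mem_support_iff.2 h))
    refine ⟨fun v hv => h3 v fun h => hv (Finset.mem_sdiff.1 h).1,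
      fun v hv => h3 v fun h => (Finset.mem_sdiff.1 h).2 hv, fun v => ?_⟩
    by_cases hv : v ∈ W \ V
    · exact Finset.mem_Ico.1 (h2 v hv)
    · rw [h3 v hv]
      exact ⟨le_rfl, hpZ⟩
  have key := hCG p hp (Additive Kˣ) (Dv K) prinHom (Subgroup.toAddSubgroup (Qg S T χ))
    (SupF K (W : Set (HeightOneSpectrum (𝓞 K)))) (SupF K (V : Set (HeightOneSpectrum (𝓞 K))))
    (NQ S T χ) (Subgroup.toAddSubgroup (Rg S T χ))
    (fun D hD v hv => hD v fun h => hv (hVW h))
    (fun d => by
      obtain ⟨x, hx⟩ := hWs d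
      exact ⟨Additive.ofMul x, hx⟩)
    (fun d hd v hv => by
      have h1 := hd v hv
      rw [Finsupp.smul_apply, nsmul_eq_mul] at h1
      rcases mul_eq_zero.1 h1 with h2 | h2
      · exact absurd h2 hpZ.ne'
      · exact h2)
    (fun d => by
      rw [mem_NQ]
      constructor
      · rintro ⟨b, hb, D', D'', hD, h⟩
        exact ⟨Additive.ofMul b, hb, D', D'', by rw [hVs]; exact hD, h⟩
      · rintro ⟨b, hb, D', D'', hD, h⟩
        exact ⟨b.toMul, hb, D', D'', by rw [← hVs]; exact hD, h⟩)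
    (fun a => by
      constructor
      · intro ha
        have h1 : a.toMul ∈ Rg S T χ := ha
        rw [mem_Rg] at h1
        refine ⟨mem_Qg.2 h1.1, exists_div p V _ fun v hv => ?_⟩
        exact h1.2 v fun h => hv (by rw [hV]; exact Finset.mem_union_left _ h)
      · rintro ⟨h1, d, hd⟩
        have h2 : a.toMul ∈ Qg S T χ := h1
        have h3 := mem_Qg.1 h2
        show a.toMul ∈ Rg S T χ
        rw [mem_Rg]
        refine ⟨h3, fun v hv => ?_⟩
        by_cases hvP : v ∈ PSet S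
        · rw [prin_PSet h3.1 hvP]
          exact dvd_zero _
        · have h4 := hd v (by
            rw [hVs]
            rintro (h | h)
            · exact hv h
            · exact hvP h)
          have h5 : prin a.toMul v - (p : ℤ) * d v = 0 := by
            rw [Finsupp.sub_apply, Finsupp.smul_apply, nsmul_eq_mul] at h4
            exact h4
          exact ⟨d v, by linarith⟩)
    hfi (X.map Additive.ofMul.toEmbedding) (Z.map Additive.ofMul.toEmbedding) Y
    (by
      intro x hx y hy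
      rw [Finset.mem_map] at hx hy
      obtain ⟨x, hx, rfl⟩ := hx
      obtain ⟨y, hy, rfl⟩ := hy
      rintro ⟨q, hq, a, h⟩
      have h1 : x = y := by
        apply hXs x hx y hy
        have h2 : x / y = q.toMul * a.toMul ^ p := h
        rw [h2]
        exact mul_mem (Subgroup.mem_sup_left hq) (Subgroup.mem_sup_right (mem_PW.2 ⟨_, rfl⟩))
      rw [h1])
    (fun y hy v hv => (hYm y hy).1 v hv)
    (by
      intro x hx y hy
      rintro ⟨v, hv, w, hw, h⟩
      ext P
      by_cases hP : P ∈ V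
      · rw [(hYm x hx).2.1 P hP, (hYm y hy).2.1 P hP]
      · have h1 := congrArg (fun t : Dv K => t P) h
        simp only [Finsupp.sub_apply, Finsupp.add_apply, Finsupp.smul_apply, nsmul_eq_mul] at h1
        rw [hv P hP, zero_add] at h1
        have h2 := (hYm x hx).2.2 P
        have h3 := (hYm y hy).2.2 P
        have h4 : x P % p = y P % p := by
          rw [Int.emod_eq_emod_iff_emod_sub_eq_zero, h1]
          exact Int.mul_emod_right _ _
        rw [Int.emod_eq_of_lt h2.1 h2.2, Int.emod_eq_of_lt h3.1 h3.2] at h4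
        exact h4)
    (by
      rintro a ⟨d, hd⟩
      obtain ⟨x, hx, k, h⟩ := hZs a.toMul (fun v hv => by
        have h4 := hd v hv
        have h5 : prin a.toMul v - (p : ℤ) * d v = 0 := by
          rw [Finsupp.sub_apply, Finsupp.smul_apply, nsmul_eq_mul] at h4
          exact h4
        exact ⟨d v, by linarith⟩)
      exact ⟨Additive.ofMul x, Finset.mem_map.2 ⟨x, hx, rfl⟩, Additive.ofMul k, h⟩)
  have hPW : AddMonoidHom.range (p • AddMonoidHom.id (Additive Kˣ)) = Subgroup.toAddSubgroup (PW K p) := by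
    ext a
    constructor
    · rintro ⟨b, hb⟩
      exact ⟨b.toMul, hb⟩
    · rintro ⟨b, hb⟩
      exact ⟨Additive.ofMul b, hb⟩
  rw [hPW, Subgroup.relIndex_toAddSubgroup, Finset.card_map, Finset.card_map, hYc] at key
  refine ⟨key.1, ?_⟩
  have h1 := key.2
  obtain ⟨r, hr⟩ : ∃ r, r = NumberField.Units.rank K := ⟨_, rfl⟩
  obtain ⟨R, hRe⟩ : ∃ R, R = (PW K p).relIndex (Rg S T χ) := ⟨_, rfl⟩
  rw [← hr] at hZc hIn
  rw [← hRe] at h1 ⊢
  have hle := Finset.card_le_card hVW
  have h2 : p ^ (r + 1) * p ^ W.card * R ≤ (NQ S T χ).index * p ^ (r + W.card) :=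
    calc p ^ (r + 1) * p ^ W.card * R = p ^ V.card * p ^ (r + 1) * p ^ (W.card - V.card) * R := by
          congr 1
          rw [← pow_add, ← pow_add, ← pow_add]
          congr 1
          omega
      _ ≤ p ^ V.card * Ideal.absNorm I * p ^ (W.card - V.card) * R := by gcongr
      _ ≤ X.card * p ^ (W.card - V.card) * R := by
          rw [hVc]
          gcongr
      _ ≤ (NQ S T χ).index * Z.card := h1
      _ ≤ (NQ S T χ).index * p ^ (r + W.card) := by gcongr
  have h3 : p * R * p ^ (r + W.card) ≤ (NQ S T χ).index * p ^ (r + W.card) := by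
    refine le_trans (le_of_eq ?_) h2
    rw [pow_add, pow_add, pow_one]
    ring
  exact Nat.le_of_mul_le_mul_right h3 (pow_pos hp.pos _)

end Pool.Agent.Q96.SH
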