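import Pool.Agent.Q5.SH.Stm
import Pool.Agent.Q224.SG.BL
import Pool.Agent.Q285.SG.EX
import Pool.Agent.Q285.SG.PW

set_option autoImplicit false

/-! # Project SH (helper5), job LS -/

namespace Pool.Agent.Q96.SH

open NumberField IsDedekindDomain Module Pool.Agent.Y18.LC Pool.Agent.Q5.SG Pool.Agent.Q5.SH

/-- a sum of small terms is small -/
theorem norm_sum_le' {p : ℕ} [Fact p.Prime] {ι : Type} (s : Finset ι) (f : ι → ℂ_[p]) {r : ℝ} (hr : 0 ≤ r)
    (hf : ∀ i ∈ s, ‖f i‖ ≤ r) : ‖∑ i ∈ s, f i‖ ≤ r := by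
  classical
  induction s using Finset.induction_on with
  | empty => simpa using hr
  | insert a s ha ih =>
    rw [Finset.sum_insert ha]
    exact (IsUltrametricDist.norm_add_le_max _ _).trans
      (max_le (hf a (Finset.mem_insert_self a s)) (ih fun i hi => hf i (Finset.mem_insert_of_mem hi)))

theorem ls : J_LS := by
  intro hTC p _ hp2 K H _ _ _ _ _ _ hun S g hg b c v hv hbc hgc
  have hp0 : (0 : ℝ) < (p : ℝ)⁻¹ := by
    have : (0 : ℝ) < p := by exact_mod_cast (Fact.out : p.Prime).pos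
    positivity
  have hp1 : (p : ℝ)⁻¹ < 1 := pinv_lt_one
  rcases S.eq_empty_or_nonempty with rfl | ⟨σ₀, hσ₀⟩
  · exact ⟨1, fun σ hσ => absurd hσ (Set.notMem_empty _)⟩
  -- all quotients are close to 1
  let G : Subgroup (H ≃ₐ[K] H) :=
    { carrier := {h | h • c / c ∈ CU S H 1}
      mul_mem' := by
        intro a b' ha hb'
        have h1 : (a * b') • c / c = (a • (b' • c / c)) * (a • c / c) := by
          rw [smul_div', mul_smul, div_mul_div_cancel]
        show (a * b') • c / c ∈ CU S H 1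
        rw [h1]
        exact mul_mem (Pool.Agent.Q224.SG.smul_CU S a hb') ha
      one_mem' := by
        show (1 : H ≃ₐ[K] H) • c / c ∈ CU S H 1
        rw [one_smul, div_self']
        exact one_mem _
      inv_mem' := by
        intro a ha
        have h1 : a⁻¹ • c / c = (a⁻¹ • (a • c / c))⁻¹ := by
          rw [smul_div', inv_smul_smul, inv_div]
        show a⁻¹ • c / c ∈ CU S H 1
        rw [h1]
        exact inv_mem (Pool.Agent.Q224.SG.smul_CU S a⁻¹ ha) }
  have hall : ∀ h : H ≃ₐ[K] H, h • c / c ∈ CU S H 1 := by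
    intro h
    have h1 : Subgroup.zpowers g ≤ G := (Subgroup.zpowers_le (H := G)).2 hgc
    exact h1 (hg h)
  obtain ⟨t, ht⟩ := hTC p K H hun
  obtain ⟨k1, hk1⟩ : ∃ k1 : K, k1 = Algebra.trace K H ((t : H) * (c : H)) := ⟨_, rfl⟩
  have hk1H : algebraMap K H k1 = ∑ h : H ≃ₐ[K] H, h ((t : H) * (c : H)) := by
    rw [hk1, trace_eq_sum_automorphisms]
  -- the quotient
  have hq : ∀ σ : H →+* ℂ_[p], σ.comp (algebraMap K H) ∈ S → ‖σ (algebraMap K H k1 / (c : H)) - 1‖ ≤ (p : ℝ)⁻¹ := by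
    intro σ hσ
    have e1 : σ (algebraMap K H k1 / (c : H)) - 1 = (σ (∑ h : H ≃ₐ[K] H, h (t : H)) - 1) +
        ∑ h : H ≃ₐ[K] H, σ (h (t : H)) * (σ ((h • c / c : Hˣ) : H) - 1) := by
      have e2 : ∀ h : H ≃ₐ[K] H, σ (h (t : H)) * (σ ((h • c / c : Hˣ) : H) - 1) =
          σ (h ((t : H) * (c : H)) / (c : H)) - σ (h (t : H)) := by
        intro h
        rw [Units.val_div_eq_div_val, mul_sub, mul_one, ← map_mul, map_mul h]
        congr 2
        rw [mul_div_assoc]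
        rfl
      rw [Finset.sum_congr rfl fun h _ => e2 h, Finset.sum_sub_distrib, ← map_sum, ← map_sum, ← Finset.sum_div, ← hk1H]
      ring
    rw [e1]
    refine (IsUltrametricDist.norm_add_le_max _ _).trans (max_le (ht σ) ?_)
    refine norm_sum_le' _ _ hp0.le fun h _ => ?_
    rw [norm_mul]
    have h2 : ‖σ ((h • c / c : Hˣ) : H) - 1‖ ≤ (p : ℝ)⁻¹ := by
      have h3 := (mem_CU.1 (hall h)).2 σ hσ
      rwa [pow_one] at h3
    have h3 : ‖σ (h (t : H))‖ ≤ 1 := norm_int_le (σ.comp h.toRingEquiv.toRingHom) t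
    calc ‖σ (h (t : H))‖ * ‖σ ((h • c / c : Hˣ) : H) - 1‖ ≤ 1 * (p : ℝ)⁻¹ :=
          mul_le_mul h3 h2 (norm_nonneg _) zero_le_one
      _ = _ := one_mul _
  have hk0 : k1 ≠ 0 := by
    rintro h0
    obtain ⟨τ, hτ⟩ := Pool.Agent.Q285.SG.ext_emb (H := H) σ₀
    have h1 := hq τ (by rw [hτ]; exact hσ₀)
    rw [h0, map_zero, zero_div, map_zero, zero_sub, norm_neg, norm_one] at h1
    linarith
  refine ⟨Units.mk0 k1 hk0, ?_⟩
  rw [← Pool.Agent.Q285.SG.ex p K K H S 2]
  intro σ hσ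
  have e1 : algebraMap K H ((b * Units.mk0 k1 hk0 ^ p : Kˣ) : K) =
      (v : H) * (algebraMap K H k1 / (c : H)) ^ p := by
    have hc0 : (c : H) ≠ 0 := c.ne_zero
    have h2 : (v : H) = algebraMap K H (b : K) * (c : H) ^ p := by
      rw [← hbc, Units.val_mul, Units.val_pow_eq_pow_val]
      rfl
    have h3 : ((b * Units.mk0 k1 hk0 ^ p : Kˣ) : K) = (b : K) * k1 ^ p := by
      rw [Units.val_mul, Units.val_pow_eq_pow_val, Units.val_mk0]
    rw [h2, h3, div_pow, map_mul, map_pow]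
    field_simp
  rw [e1, map_mul, map_pow]
  have hv2 := (mem_CU.1 hv).2 σ hσ
  have h5 := Pool.Agent.Q285.SG.pw p hp2 (σ (algebraMap K H k1 / (c : H))) (hq σ hσ) 1
  rw [pow_one, pow_one] at h5
  refine norm_mul_sub_one (norm_eq_one_of_EU σ (mem_CU.1 hv).1).le hv2 ?_
  rw [h5, pow_two]
  exact mul_le_mul_of_nonneg_left (hq σ hσ) hp0.le

end Pool.Agent.Q96.SH
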