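import Pool.Agent.Q5.SH.Stm
import Pool.Agent.Q182.SG.Tr
import Pool.Agent.Q106.AR.NmA
import Pool.Agent.Q299.EX.Cnt
import Pool.Agent.Q149.AR.SD2

set_option autoImplicit false
set_option linter.unusedSectionVars false

/-! # Project SH (helper5), job NL -/

namespace Pool.Agent.Q96.SH

open NumberField IsDedekindDomain Module Pool.Agent.Y18.LC Pool.Agent.Q5.SG Pool.Agent.Q5.SH
open Pool.Agent.Q92.AR (Dv prin nmD nu prin_mul prin_one prin_inv prinHom)

theorem prin_pow {K : Type} [Field K] [NumberField K] (x : Kˣ) (n : ℕ) : prin (x ^ n) = n • prin x :=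
  (prinHom (F := K)).map_nsmul n (Additive.ofMul x)

section
variable {E H : Type} [Field E] [NumberField E] [Field H] [NumberField H] [Algebra E H]

theorem val_under (W : HeightOneSpectrum (𝓞 H)) (x : E) :
    W.valuation H (algebraMap E H x) < 1 ↔ (W.under (𝓞 E)).valuation E x < 1 := by
  have : W.asIdeal.LiesOver (W.under (𝓞 E)).asIdeal := ⟨rfl⟩
  rw [← HeightOneSpectrum.valuation_liesOver (A := 𝓞 E) (K := E) H (W.under (𝓞 E)) W x]
  exact pow_lt_one_iff (Ideal.IsDedekindDomain.ramificationIdx'_ne_zero_of_liesOver W.asIdeal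
    (W.under (𝓞 E)).ne_bot)

theorem one_up (W : HeightOneSpectrum (𝓞 H)) (x : Eˣ) :
    Units.map (algebraMap E H).toMonoidHom x ∈ OneAt W ↔ x ∈ OneAt (W.under (𝓞 E)) := by
  have e : ((Units.map (algebraMap E H).toMonoidHom x : Hˣ) : H) - 1 = algebraMap E H ((x : E) - 1) := by
    rw [map_sub, map_one]
    rfl
  rw [mem_OneAt, mem_OneAt, e, val_under]

end

section
variable {K H : Type} [Field K] [NumberField K] [Field H] [NumberField H] [Algebra K H]

theorem one_act (g : H ≃ₐ[K] H) (W : HeightOneSpectrum (𝓞 H)) (x : Hˣ) :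
    g • x ∈ OneAt W ↔ x ∈ OneAt (Pool.Agent.TeamU.act g⁻¹ W) := by
  rw [mem_OneAt, mem_OneAt, Pool.Agent.TeamU.val_act']
  have h : (g⁻¹ : H ≃ₐ[K] H).symm ((x : H) - 1) = ((g • x : Hˣ) : H) - 1 := by
    have h1 : (g⁻¹ : H ≃ₐ[K] H).symm = g := rfl
    rw [h1, map_sub, map_one]
    rfl
  rw [h]

end

theorem prod_mul_range {M : Type} [CommMonoid M] (f : ℕ → M) (a n : ℕ) :
    ∏ k ∈ Finset.range (n * a), f k = ∏ i ∈ Finset.range n, ∏ l ∈ Finset.range a, f (l + i * a) := by
  induction n with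
  | zero => simp
  | succ n ih =>
    rw [Finset.prod_range_succ, ← ih, Nat.succ_mul, Finset.prod_range_add]
    congr 1
    exact Finset.prod_congr rfl fun l _ => by rw [add_comm]

theorem nl : S_NL := by
  classical
  intro p _ K H _ _ _ _ _ _ g hg m j hfin hj1 hjm T χ hX hNK b c hc hbc v hv
  have hp : p.Prime := Fact.out
  have hcard : Nat.card (H ≃ₐ[K] H) = p ^ m := by
    rw [← hfin]
    exact IsGalois.card_aut_eq_finrank K H
  have : Finite (H ≃ₐ[K] H) := Nat.finite_of_card_ne_zero (by rw [hcard]; exact pow_ne_zero _ hp.ne_zero)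
  have hordg : orderOf g = p ^ m := by
    rw [← hcard]
    exact orderOf_eq_card_of_forall_mem_zpowers hg
  have hcN : Nat.card (Subgroup.zpowers (g ^ p ^ j)) = p ^ (m - j) := by
    rw [Nat.card_zpowers, orderOf_pow_of_dvd (pow_ne_zero _ hp.ne_zero) (by rw [hordg]; exact pow_dvd_pow p hjm),
      hordg, Nat.pow_div hjm hp.pos]
  obtain ⟨hnorm, -⟩ := Pool.Agent.Q182.SG.sub_eq hg hp hcard hjm (Subgroup.zpowers (g ^ p ^ j)) hcN
  obtain ⟨E, hE⟩ : ∃ E : IntermediateField K H, E = IntermediateField.fixedField (Subgroup.zpowers (g ^ p ^ j)) :=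
    ⟨_, rfl⟩
  have hGE : IsGalois K E := by
    rw [hE]
    exact IsGalois.of_fixedField_normal_subgroup _
  have hfE : finrank E H = p ^ (m - j) := by
    rw [hE, IntermediateField.finrank_fixedField_eq_card, hcN]
  have hfKE : finrank K E = p ^ j := by
    have h1 := Module.finrank_mul_finrank K E H
    rw [hfE, hfin] at h1
    have h2 : p ^ m = p ^ j * p ^ (m - j) := by rw [← pow_add]; congr 1; omega
    rw [h2] at h1
    exact Nat.eq_of_mul_eq_mul_right (pow_pos hp.pos _) h1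
  have hfixE : ∀ x : H, (g ^ p ^ j) x = x → x ∈ E := by
    intro x hx
    rw [hE, IntermediateField.mem_fixedField_iff]
    intro σ hσ
    have h1 : g ^ p ^ j ∈ MulAction.stabilizer (H ≃ₐ[K] H) x := hx
    exact (Subgroup.zpowers_le.2 h1) hσ
  -- the restriction of `g`
  obtain ⟨r, hr⟩ : ∃ r : (H ≃ₐ[K] H) →* (E ≃ₐ[K] E), r = AlgEquiv.restrictNormalHom (F := K) (K₁ := H) E := ⟨_, rfl⟩
  have hrs : Function.Surjective r := by rw [hr]; exact AlgEquiv.restrictNormalHom_surjective H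
  have hcE : Nat.card (E ≃ₐ[K] E) = p ^ j := by
    rw [← hfKE]
    exact IsGalois.card_aut_eq_finrank K E
  have : Finite (E ≃ₐ[K] E) := Nat.finite_of_card_ne_zero (by rw [hcE]; exact pow_ne_zero _ hp.ne_zero)
  have hrg : ∀ h : E ≃ₐ[K] E, h ∈ Subgroup.zpowers (r g) := by
    intro h
    obtain ⟨h', rfl⟩ := hrs h
    obtain ⟨a, ha⟩ := hg h'
    refine ⟨a, ?_⟩
    show (r g) ^ a = r h'
    rw [← ha, map_zpow]
  have hordr : orderOf (r g) = p ^ j := by
    rw [← hcE]
    exact orderOf_eq_card_of_forall_mem_zpowers hrg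
  have hcomp : ∀ (k : ℕ) (x : E), algebraMap E H (((r g) ^ k) x) = (g ^ k) (algebraMap E H x) := by
    intro k x
    rw [← map_pow, hr]
    exact AlgEquiv.restrictNormal_commutes (g ^ k) E x
  -- the maps
  obtain ⟨φ, hφ⟩ : ∃ φ : Eˣ →* Hˣ, φ = Units.map (algebraMap E H).toMonoidHom := ⟨_, rfl⟩
  obtain ⟨ψ, hψ⟩ : ∃ ψ : Kˣ →* Hˣ, ψ = Units.map (algebraMap K H).toMonoidHom := ⟨_, rfl⟩
  rw [← hψ] at hbc
  have hφc : ∀ x : Eˣ, ((φ x : Hˣ) : H) = algebraMap E H (x : E) := fun x => by rw [hφ]; rfl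
  have hψc : ∀ x : Kˣ, ((ψ x : Hˣ) : H) = algebraMap K H (x : K) := fun x => by rw [hψ]; rfl
  have hgψ : ∀ (h : H ≃ₐ[K] H) (x : Kˣ), h • ψ x = ψ x := by
    intro h x
    apply Units.ext
    have h1 : ((h • ψ x : Hˣ) : H) = h ((ψ x : Hˣ) : H) := rfl
    rw [h1, hψc]
    exact h.commutes (x : K)
  -- the norm
  have hnu : ∀ x : Eˣ, ψ (nu K E x) = ∏ i ∈ Finset.range (p ^ j), g ^ i • φ x := by
    intro x
    have hfinE : FiniteDimensional K E := Module.Finite.of_restrictScalars_finite ℚ K E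
    have h1 : algebraMap K E (Algebra.norm K (x : E)) = ∏ σ : E ≃ₐ[K] E, σ (x : E) :=
      Algebra.norm_eq_prod_automorphisms K (x : E)
    have h2 : (Finset.univ : Finset (E ≃ₐ[K] E)) = (Finset.range (orderOf (r g))).image (fun i => (r g) ^ i) := by
      ext σ
      constructor
      · intro _
        exact mem_zpowers_iff_mem_range_orderOf.1 (hrg σ)
      · intro _
        exact Finset.mem_univ σ
    have h3 : ∏ σ : E ≃ₐ[K] E, σ (x : E) = ∏ i ∈ Finset.range (p ^ j), ((r g) ^ i) (x : E) := by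
      rw [h2, Finset.prod_image, hordr]
      intro i hi k hk hik
      have hi' : i < orderOf (r g) := Finset.mem_range.1 hi
      have hk' : k < orderOf (r g) := Finset.mem_range.1 hk
      exact pow_injOn_Iio_orderOf hi' hk' hik
    apply Units.ext
    rw [hψc]
    have h4 : ((nu K E x : Kˣ) : K) = Algebra.norm K (x : E) := rfl
    rw [h4, IsScalarTower.algebraMap_apply K E H, h1, h3, map_prod, Units.coe_prod]
    refine Finset.prod_congr rfl fun i _ => ?_
    rw [hcomp]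
    have h5 : ((g ^ i • φ x : Hˣ) : H) = (g ^ i) ((φ x : Hˣ) : H) := rfl
    rw [h5, hφc]
  -- `c` comes from `E`
  have hcH : (c : H) ∈ E := by
    apply hfixE
    have := congrArg (fun t : Hˣ => (t : H)) hc
    exact this
  obtain ⟨cE, hcE'⟩ : ∃ cE : Eˣ, φ cE = c := by
    have h0 : (⟨(c : H), hcH⟩ : E) ≠ 0 := by
      intro h
      exact c.ne_zero (congrArg Subtype.val h)
    refine ⟨Units.mk0 _ h0, Units.ext ?_⟩
    rw [hφc]
    rfl
  -- approximation
  have hexp : (WithZero.exp (-((1 : ℕ) : ℤ)) : WithZero (Multiplicative ℤ)) < 1 := by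
    rw [← WithZero.exp_zero, WithZero.exp_lt_exp]
    norm_num
  obtain ⟨e, he⟩ := Pool.Agent.Q299.EX.approx (F := K) T.finite_toSet
    (fun w => if w = v then b else 1) (fun _ => 1) (fun _ => le_rfl)
  have he1 : e / b ∈ OneAt v := by
    have h1 := he v hv
    rw [mem_OneAt, Units.val_div_eq_div_val]
    simp only [if_true] at h1
    exact lt_of_le_of_lt h1 hexp
  have he2 : ∀ w ∈ T, w ≠ v → e ∈ OneAt w := by
    intro w hw hwv
    have h1 := he w hw
    rw [if_neg hwv, Units.val_one, div_one] at h1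
    rw [mem_OneAt]
    exact lt_of_le_of_lt h1 hexp
  have hPfin : {w : HeightOneSpectrum (𝓞 E) | w.under (𝓞 K) ∈ T}.Finite := by
    have h1 : {w : HeightOneSpectrum (𝓞 E) | w.under (𝓞 K) ∈ T} =
        ⋃ t ∈ T, {w : HeightOneSpectrum (𝓞 E) | w.under (𝓞 K) = t} := by
      ext w
      simp
    rw [h1]
    exact Set.Finite.biUnion T.finite_toSet fun t _ => Pool.Agent.Q5.BR.above_finite t
  obtain ⟨c', hc'⟩ := Pool.Agent.Q299.EX.approx (F := E) hPfin
    (fun w => if w.under (𝓞 K) = v then cE else 1) (fun _ => 1) (fun _ => le_rfl)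
  have hc1 : ∀ w : HeightOneSpectrum (𝓞 E), w.under (𝓞 K) = v → c' / cE ∈ OneAt w := by
    intro w hw
    have h1 := hc' w (show w.under (𝓞 K) ∈ T by rw [hw]; exact hv)
    rw [mem_OneAt, Units.val_div_eq_div_val]
    simp only [hw, if_true] at h1
    exact lt_of_le_of_lt h1 hexp
  have hc2 : ∀ w : HeightOneSpectrum (𝓞 E), w.under (𝓞 K) ∈ T → w.under (𝓞 K) ≠ v → c' ∈ OneAt w := by
    intro w hw hwv
    have h1 := hc' w hw
    rw [if_neg hwv, Units.val_one, div_one] at h1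
    rw [mem_OneAt]
    exact lt_of_le_of_lt h1 hexp
  have htow : ∀ W : HeightOneSpectrum (𝓞 H), (W.under (𝓞 E)).under (𝓞 K) = W.under (𝓞 K) := by
    intro W
    apply HeightOneSpectrum.ext
    ext x
    show algebraMap (𝓞 E) (𝓞 H) (algebraMap (𝓞 K) (𝓞 E) x) ∈ W.asIdeal ↔ algebraMap (𝓞 K) (𝓞 H) x ∈ W.asIdeal
    rw [← IsScalarTower.algebraMap_apply (𝓞 K) (𝓞 E) (𝓞 H)]
  have hact : ∀ (i : ℕ) (W : HeightOneSpectrum (𝓞 H)), (Pool.Agent.TeamU.act (g ^ i)⁻¹ W).under (𝓞 K) =
      W.under (𝓞 K) := fun i W => Pool.Agent.Q149.AR.act_under _ _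
  -- the product
  obtain ⟨N, hN⟩ : ∃ N : Kˣ, N = e ^ p ^ (j - 1) * nu K E c' := ⟨_, rfl⟩
  have hψN : ψ N = (ψ e) ^ p ^ (j - 1) * ∏ i ∈ Finset.range (p ^ j), g ^ i • φ c' := by
    rw [hN, map_mul, map_pow, hnu]
  have hone : (ψ b) ^ p ^ (j - 1) * ∏ i ∈ Finset.range (p ^ j), g ^ i • c = 1 := by
    have h1 : p ^ j = p * p ^ (j - 1) := by
      rw [← pow_succ']
      congr 1
      omega
    rw [h1, prod_mul_range, Finset.prod_comm]
    have h2 : (ψ b) ^ p ^ (j - 1) = ∏ l ∈ Finset.range (p ^ (j - 1)), ψ b := by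
      rw [Finset.prod_const, Finset.card_range]
    rw [h2, ← Finset.prod_mul_distrib]
    refine Finset.prod_eq_one fun l _ => ?_
    have h3 : ψ b * ∏ i ∈ Finset.range p, g ^ (l + i * p ^ (j - 1)) • c =
        g ^ l • (ψ b * ∏ i ∈ Finset.range p, g ^ (i * p ^ (j - 1)) • c) := by
      rw [smul_mul', hgψ, Finset.smul_prod']
      congr 1
      refine Finset.prod_congr rfl fun i _ => ?_
      rw [smul_smul, ← pow_add]
    rw [h3, hbc, smul_one]
  have hNT : ∀ t ∈ T, N ∈ OneAt t := by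
    intro t ht
    obtain ⟨W, hW⟩ := Pool.Agent.Q149.AR.above_nonempty (F := K) (E := H) t
    rw [← hW, ← one_up, ← hψ, hψN]
    by_cases htv : t = v
    · have h1 : (ψ e) ^ p ^ (j - 1) * ∏ i ∈ Finset.range (p ^ j), g ^ i • φ c' =
          ((ψ (e / b)) ^ p ^ (j - 1) * ∏ i ∈ Finset.range (p ^ j), g ^ i • φ (c' / cE)) *
            ((ψ b) ^ p ^ (j - 1) * ∏ i ∈ Finset.range (p ^ j), g ^ i • c) := by
        rw [mul_mul_mul_comm, ← mul_pow, ← map_mul, div_mul_cancel, ← Finset.prod_mul_distrib]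
        congr 1
        refine Finset.prod_congr rfl fun i _ => ?_
        rw [← smul_mul', ← hcE', ← map_mul, div_mul_cancel]
      rw [h1, hone, mul_one]
      refine (OneAt W).mul_mem ((OneAt W).pow_mem ?_ _) ((OneAt W).prod_mem fun i _ => ?_)
      · rw [hψ, one_up, hW, htv]
        exact he1
      · rw [one_act, hφ, one_up]
        apply hc1
        rw [htow, hact, hW, htv]
    · refine (OneAt W).mul_mem ((OneAt W).pow_mem ?_ _) ((OneAt W).prod_mem fun i _ => ?_)
      · rw [hψ, one_up, hW]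
        exact he2 t ht htv
      · rw [one_act, hφ, one_up]
        apply hc2
        · rw [htow, hact, hW]
          exact ht
        · rw [htow, hact, hW]
          exact htv
  have hray := hX.ray N hNT
  rw [hN, prin_mul, prin_pow, map_add, map_nsmul, ← Pool.Agent.Q106.AR.nm_prin] at hray
  have hk := hNK j E hfKE (prin c')
  rw [mem_Loc]
  refine ⟨e, he1, he2, ?_⟩
  show p ^ (m - 1) • χ (prin e) = 0
  have h1 : p ^ (m - 1) = p ^ (m - j) * p ^ (j - 1) := by
    rw [← pow_add]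
    congr 1
    omega
  rw [h1, mul_smul]
  have h2 := congrArg (fun t => p ^ (m - j) • t) hray
  simp only [smul_zero] at h2
  have h3 := nsmul_add (p ^ (j - 1) • χ (prin e)) (χ (nmD K E (prin c'))) (p ^ (m - j))
  have h4 : p ^ (m - j) • (p ^ (j - 1) • χ (prin e)) + p ^ (m - j) • χ (nmD K E (prin c')) = 0 := h3.symm.trans h2
  rwa [hk, add_zero] at h4

end Pool.Agent.Q96.SH
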